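import Pool.Agent.R161.GR.Defs
import Pool.Agent.R252.Sym

/-! Piece GR-HOM: the homogeneous part of the Taylor expansion. -/

set_option autoImplicit false

open scoped ContDiff Matrix Matrix.Norms.Elementwise
open Filter

namespace Pool.Agent.R619.GR

open Pool.Agent.R161.GR

/-- the coordinate functions vanishing at `P` -/
noncomputable def dl {n : ℕ} (P : Mt n) (q : Fin n × Fin n) (x : Mt n) : ℂ :=
  (x q.1 q.2 : ℂ) - (P q.1 q.2 : ℂ)

lemma dl_smooth {n : ℕ} (P : Mt n) (q : Fin n × Fin n) : ContDiff ℝ ∞ (dl P q) := by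
  have h : ContDiff ℝ ∞ (fun x : Mt n => (x q.1 q.2 : ℂ)) :=
    Complex.ofRealCLM.contDiff.comp
      (((ContinuousLinearMap.proj (R := ℝ) (φ := fun _ : Fin n => ℝ) q.2).comp
        (ContinuousLinearMap.proj (R := ℝ) (φ := fun _ : Fin n => (Fin n → ℝ)) q.1)).contDiff)
  exact h.sub contDiff_const

lemma prod_smooth {n d : ℕ} (P : Mt n) (s : Fin d → Fin n × Fin n) :
    ContDiff ℝ ∞ (fun x => ∏ i, dl P (s i) x) := by
  have : ∀ S : Finset (Fin d), ContDiff ℝ ∞ (fun x => ∏ i ∈ S, dl P (s i) x) := by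
    intro S
    classical
    induction S using Finset.induction_on with
    | empty => simpa using (contDiff_const : ContDiff ℝ ∞ fun _ : Mt n => (1 : ℂ))
    | insert a S ha ih =>
      simp only [Finset.prod_insert ha]
      exact (dl_smooth P (s a)).mul ih
  exact this _

lemma sum_smooth {n d : ℕ} (P : Mt n) (c : (Fin d → Fin n × Fin n) → ℂ)
    (T : Finset (Fin d → Fin n × Fin n)) :
    ContDiff ℝ ∞ (fun x => ∑ s ∈ T, c s * ∏ i, dl P (s i) x) := by
  classical
  induction T using Finset.induction_on with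
  | empty => simpa using (contDiff_const : ContDiff ℝ ∞ fun _ : Mt n => (0 : ℂ))
  | insert a T ha ih =>
    simp only [Finset.sum_insert ha]
    exact (contDiff_const.mul (prod_smooth P a)).add ih

lemma sum_van (hv : S_van) {n d N : ℕ} (hN : N < d) (P : Mt n)
    (c : (Fin d → Fin n × Fin n) → ℂ) (T : Finset (Fin d → Fin n × Fin n)) :
    Van N P (fun x => ∑ s ∈ T, c s * ∏ i, dl P (s i) x) := by
  classical
  obtain ⟨h1, h2, h3, h4⟩ := hv n N P
  induction T using Finset.induction_on with
  | empty =>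
    apply h3
    exact Eventually.of_forall fun x => by simp
  | insert a T ha ih =>
    simp only [Finset.sum_insert ha]
    apply h4
    · exact contDiff_const.mul (prod_smooth P a)
    · exact sum_smooth P c T
    · have h5 := h2 d (fun i => dl P (a i)) (fun i => dl_smooth P (a i))
        (fun i => by simp [dl]) hN
      have h6 := h1 _ (fun _ => c a) (prod_smooth P a) contDiff_const h5
      have e : (fun x => c a * ∏ i, dl P (a i) x) = fun x => (∏ i, dl P (a i) x) * c a := by
        funext x
        ring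
      rw [e]
      exact h6
    · exact ih

lemma expand {n d : ℕ} (M : ContinuousMultilinearMap ℝ (fun _ : Fin d => Mt n) ℂ) (P x : Mt n) :
    M (fun _ => x - P) = ∑ s : Fin d → Fin n × Fin n,
      M (fun i => Matrix.single (s i).1 (s i).2 1) * ∏ i, dl P (s i) x := by
  have h1 : x - P = ∑ q : Fin n × Fin n, ((x - P) q.1 q.2) • Matrix.single q.1 q.2 (1 : ℝ) := by
    rw [Fintype.sum_prod_type]
    conv_lhs => rw [Matrix.matrix_eq_sum_single (x - P)]
    refine Finset.sum_congr rfl fun i _ => Finset.sum_congr rfl fun j _ => ?_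
    rw [Matrix.smul_single, smul_eq_mul, mul_one]
  have h2 : M (fun _ => x - P) = M (fun _ : Fin d => ∑ q : Fin n × Fin n,
      ((x - P) q.1 q.2) • Matrix.single q.1 q.2 (1 : ℝ)) := by
    congr 1
    funext _
    exact h1
  rw [h2, ContinuousMultilinearMap.map_sum]
  refine Finset.sum_congr rfl fun s _ => ?_
  rw [ContinuousMultilinearMap.map_smul_univ, Complex.real_smul, mul_comm]
  congr 1
  rw [Complex.ofReal_prod]
  refine Finset.prod_congr rfl fun i _ => ?_
  simp [dl]

theorem s_hom : S_van → S_hom := by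
  intro hv n d P H hH h0
  set M := iteratedFDeriv ℝ d H P with hM
  set a : ℝ := ((d.factorial : ℕ) : ℝ)⁻¹ with ha
  have hfac : ((d.factorial : ℕ) : ℝ) ≠ 0 := by exact_mod_cast d.factorial_ne_zero
  let c : (Fin d → Fin n × Fin n) → ℂ := fun s =>
    (a : ℂ) * M (fun i => Matrix.single (s i).1 (s i).2 1)
  refine ⟨c, ?_⟩
  -- the polynomial
  have hG : (fun x : Mt n => ∑ s : Fin d → Fin n × Fin n, c s * ∏ i, dl P (s i) x) =
      fun x => a • M (fun _ => x - P) := by
    funext x
    have hexp := expand M P x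
    have hexp' : M (fun _ => x - P) = ∑ s : Fin d → Fin n × Fin n,
      M (fun i => Matrix.single (s i).1 (s i).2 1) * ∏ i, dl P (s i) x := hexp
    rw [hexp', Complex.real_smul, Finset.mul_sum]
    refine Finset.sum_congr rfl fun s _ => ?_
    simp only [c]
    ring
  have hGs : ContDiff ℝ ∞ (fun x : Mt n => ∑ s : Fin d → Fin n × Fin n, c s * ∏ i, dl P (s i) x) :=
    sum_smooth P c _
  change Van d P (fun x => H x - ∑ s : Fin d → Fin n × Fin n, c s * ∏ i, dl P (s i) x)
  intro j hj
  have hsub : iteratedFDeriv ℝ j (fun x => H x - ∑ s : Fin d → Fin n × Fin n,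
      c s * ∏ i, dl P (s i) x) P = iteratedFDeriv ℝ j H P - iteratedFDeriv ℝ j
      (fun x => ∑ s : Fin d → Fin n × Fin n, c s * ∏ i, dl P (s i) x) P :=
    iteratedFDeriv_sub_apply (f := H)
      (g := fun x => ∑ s : Fin d → Fin n × Fin n, c s * ∏ i, dl P (s i) x)
      ((hH.of_le (by exact_mod_cast le_top)).contDiffAt)
      ((hGs.of_le (by exact_mod_cast le_top)).contDiffAt)
  rw [hsub]
  rcases lt_or_eq_of_le hj with hj | rfl
  · rw [h0 j hj, sum_van hv hj P c _ j le_rfl, sub_zero]
  · rw [hG]
    have hdiag : ContDiff ℝ ∞ (fun x : Mt n => M (fun _ => x)) :=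
      M.contDiff.comp (contDiff_pi.2 fun _ => contDiff_id)
    have hdiagP : ContDiff ℝ ∞ (fun x : Mt n => M (fun _ => x - P)) :=
      hdiag.comp (contDiff_id.sub contDiff_const)
    have e1 : iteratedFDeriv ℝ j (fun x : Mt n => a • M (fun _ => x - P)) P =
        a • iteratedFDeriv ℝ j (fun x : Mt n => M (fun _ => x - P)) P :=
      iteratedFDeriv_const_smul_apply' ((hdiagP.of_le (by exact_mod_cast le_top)).contDiffAt)
    have e2 : iteratedFDeriv ℝ j (fun x : Mt n => M (fun _ => x - P)) P =
        iteratedFDeriv ℝ j (fun x : Mt n => M (fun _ => x)) (P - P) :=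
      iteratedFDeriv_comp_sub (f := fun x : Mt n => M (fun _ => x)) j P P
    rw [e1, e2, sub_eq_zero]
    ext v
    rw [ContinuousMultilinearMap.smul_apply, M.iteratedFDeriv_comp_diagonal]
    have e3 : ∀ σ : Equiv.Perm (Fin j), M (fun i => v (σ i)) = M v := by
      intro σ
      exact Pool.Agent.R252.iteratedFDeriv_comp_perm_smooth hH σ P v
    simp only [e3, Finset.sum_const, Finset.card_univ, Fintype.card_perm, Fintype.card_fin]
    rw [← Nat.cast_smul_eq_nsmul ℝ, smul_smul, ha, inv_mul_cancel₀ hfac, one_smul]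

end Pool.Agent.R619.GR
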