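import Pool.Agent.R161.GR.Defs

/-! Piece GR-ORD: a generalized function with finite support has finite order. -/

set_option autoImplicit false

open scoped ContDiff Matrix Matrix.Norms.Elementwise
open Filter

namespace Pool.Agent.R619.GR

open Pool.Agent.R161.GR

lemma tay_max {n N : ℕ} (ht : S_tay) (H : Mt n → ℂ) (hH : ContDiff ℝ ∞ H) (S : Set (Mt n))
    (hS : S.Finite) (hv : ∀ P ∈ S, Van N P H) : ∃ M : ℝ, 0 ≤ M ∧ ∀ P ∈ S, ∀ x, ‖x - P‖ ≤ 1 →
      ∀ j ≤ N, ‖iteratedFDeriv ℝ j H x‖ ≤ M * ‖x - P‖ ^ (N + 1 - j) := by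
  induction S, hS using Set.Finite.induction_on with
  | empty => exact ⟨0, le_rfl, fun P hP => absurd hP (Set.notMem_empty P)⟩
  | @insert a s _ _ ih =>
    obtain ⟨M, hM, h⟩ := ih (fun P hP => hv P (Set.mem_insert_of_mem _ hP))
    obtain ⟨M', h'⟩ := ht n N a H hH (hv a (Set.mem_insert _ _))
    refine ⟨max M M', hM.trans (le_max_left _ _), ?_⟩
    intro P hP x hx j hj
    rcases Set.mem_insert_iff.1 hP with rfl | hP
    · exact (h' x hx j hj).trans
        (mul_le_mul_of_nonneg_right (le_max_right _ _) (pow_nonneg (norm_nonneg _) _))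
    · exact (h P hP x hx j hj).trans
        (mul_le_mul_of_nonneg_right (le_max_left _ _) (pow_nonneg (norm_nonneg _) _))

theorem s_ord : S_van → S_cut → S_tay → S_ord := by
  intro _ hcut ht n k T hT S hS hsupp
  obtain ⟨K, _, N, C, hC⟩ := hT
  refine ⟨N, ?_⟩
  intro H hH hvan
  set S' : Set (Mt n) := Subtype.val '' S with hS'
  have hS'f : S'.Finite := hS.image _
  obtain ⟨M, hM0, hM⟩ := tay_max (N := N) ht H hH S' hS'f (by
    rintro P ⟨Q, hQ, rfl⟩
    exact hvan Q hQ)
  obtain ⟨Cx, hCx⟩ := hcut n N S' hS'f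
  have hCx0 : 0 ≤ Cx := by
    obtain ⟨χ, _, _, _, hb⟩ := hCx 1 one_pos le_rfl
    have := (norm_nonneg _).trans (hb 0 (Nat.zero_le N) 0)
    simpa using this
  -- the bound
  have key : ∀ ε : ℝ, 0 < ε → ε ≤ 1 → ‖T (res k H hH)‖ ≤ C * (2 ^ N * (Cx * M) * ε) := by
    intro ε hε hε1
    obtain ⟨χ, hχ, h1, h0, hb⟩ := hCx ε hε hε1
    have hχH : ContDiff ℝ ∞ (fun x => χ x * H x) := hχ.mul hH
    have e1 : T (res k H hH) = T (res k (fun x => χ x * H x) hχH) := by
      have h2 : T (res k H hH - res k (fun x => χ x * H x) hχH) = 0 := by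
        apply hsupp
        refine ⟨{P : Gr n k | ∀ᶠ x in nhds P.1, χ x = 1}, ?_, ?_, ?_⟩
        · exact (isOpen_setOf_eventually_nhds (p := fun x => χ x = 1)).preimage
            continuous_subtype_val
        · intro P hP
          exact h1 P.1 ⟨P, hP, rfl⟩
        · intro P hP
          have h3 : χ P.1 = 1 := (show ∀ᶠ x in nhds P.1, χ x = 1 from hP).self_of_nhds
          change H P.1 - χ P.1 * H P.1 = 0
          rw [h3]
          ring
      rw [map_sub, sub_eq_zero] at h2
      exact h2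
    rw [e1]
    apply hC
    intro j hj x _
    by_cases hx : ∀ P ∈ S', ε ≤ ‖x - P‖
    · have h3 : (fun z => χ z * H z) =ᶠ[nhds x] fun _ => 0 := by
        filter_upwards [h0 x hx] with z hz
        rw [hz, zero_mul]
      have h4 := (h3.iteratedFDeriv ℝ j).self_of_nhds
      rw [h4]
      have h5 : iteratedFDeriv ℝ j (fun _ : Mt n => (0 : ℂ)) x = 0 := by
        have := iteratedFDeriv_zero_fun (𝕜 := ℝ) (E := Mt n) (F := ℂ) (n := j)
        rw [this]
        rfl
      rw [h5, norm_zero]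
      positivity
    · push Not at hx
      obtain ⟨P, hP, hxP⟩ := hx
      have hx1 : ‖x - P‖ ≤ 1 := hxP.le.trans hε1
      have hle := norm_iteratedFDeriv_mul_le (𝕜 := ℝ) (N := ∞) hχ hH x (n := j)
        (by exact_mod_cast le_top)
      refine hle.trans ?_
      have hterm : ∀ i ∈ Finset.range (j + 1), (j.choose i : ℝ) * ‖iteratedFDeriv ℝ i χ x‖ *
          ‖iteratedFDeriv ℝ (j - i) H x‖ ≤ (j.choose i : ℝ) * (Cx * M * ε) := by
        intro i hi
        rw [Finset.mem_range] at hi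
        have b1 := hb i (by omega) x
        have b2 := hM P hP x hx1 (j - i) (by omega)
        have b3 : ‖x - P‖ ^ (N + 1 - (j - i)) ≤ ε ^ (N + 1 - (j - i)) :=
          pow_le_pow_left₀ (norm_nonneg _) hxP.le _
        have b4 : ε ^ (N + 1 - (j - i)) ≤ ε ^ (i + 1) :=
          pow_le_pow_of_le_one hε.le hε1 (by omega)
        have b5 : ‖iteratedFDeriv ℝ (j - i) H x‖ ≤ M * ε ^ (i + 1) :=
          b2.trans (mul_le_mul_of_nonneg_left (b3.trans b4) hM0)
        rw [mul_assoc]
        apply mul_le_mul_of_nonneg_left _ (Nat.cast_nonneg _)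
        calc ‖iteratedFDeriv ℝ i χ x‖ * ‖iteratedFDeriv ℝ (j - i) H x‖
            ≤ (Cx / ε ^ i) * (M * ε ^ (i + 1)) :=
              mul_le_mul b1 b5 (norm_nonneg _) (by positivity)
          _ = Cx * M * ε := by
              rw [pow_succ]
              field_simp
      refine (Finset.sum_le_sum hterm).trans ?_
      rw [← Finset.sum_mul]
      have hsum : ∑ i ∈ Finset.range (j + 1), (j.choose i : ℝ) = 2 ^ j := by
        exact_mod_cast Nat.sum_range_choose j
      rw [hsum]
      have : (2 : ℝ) ^ j ≤ 2 ^ N := pow_le_pow_right₀ (by norm_num) hj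
      have h6 : 0 ≤ Cx * M * ε := by positivity
      calc (2 : ℝ) ^ j * (Cx * M * ε) ≤ 2 ^ N * (Cx * M * ε) :=
            mul_le_mul_of_nonneg_right this h6
        _ = 2 ^ N * (Cx * M) * ε := by ring
  by_contra hne
  have hpos : 0 < ‖T (res k H hH)‖ := norm_pos_iff.2 hne
  set D := C * (2 ^ N * (Cx * M)) with hD
  have key' : ∀ ε : ℝ, 0 < ε → ε ≤ 1 → ‖T (res k H hH)‖ ≤ D * ε := by
    intro ε h1 h2
    have := key ε h1 h2
    rw [hD]
    linarith
  rcases le_or_gt D 0 with h | h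
  · have := key' 1 one_pos le_rfl
    linarith
  · have h1 := key' (min 1 (‖T (res k H hH)‖ / (2 * D))) (by positivity) (min_le_left _ _)
    have h2 : D * min 1 (‖T (res k H hH)‖ / (2 * D)) ≤ ‖T (res k H hH)‖ / 2 := by
      calc D * min 1 (‖T (res k H hH)‖ / (2 * D)) ≤ D * (‖T (res k H hH)‖ / (2 * D)) :=
            mul_le_mul_of_nonneg_left (min_le_right _ _) h.le
        _ = ‖T (res k H hH)‖ / 2 := by field_simp
    linarith

end Pool.Agent.R619.GR
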